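import Mathlib

/-!
The symmetric form attached to a map satisfying the parallelogram law (as in `LibBH2.T3`, which
cannot be imported together with `LibBH2.TwTools`).
-/

namespace Pool.Agent.LibHR84

variable {A : Type*} [AddCommGroup A] {q : A → ℝ}

/-- The symmetric form attached to a map satisfying the parallelogram law. -/
def bform (q : A → ℝ) (R S : A) : ℝ := q (R + S) - q R - q S

lemma par_zero (hq : ∀ R S : A, q (R + S) + q (R - S) = 2 * q R + 2 * q S) : q 0 = 0 := by
  have := hq 0 0
  simp at this
  linarith

lemma par_neg (hq : ∀ R S : A, q (R + S) + q (R - S) = 2 * q R + 2 * q S) (S : A) :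
    q (-S) = q S := by
  have := hq 0 S
  have h0 := par_zero hq
  simp at this
  linarith

lemma bform_add (hq : ∀ R S : A, q (R + S) + q (R - S) = 2 * q R + 2 * q S) (R S T : A) :
    bform q R (S + T) = bform q R S + bform q R T := by
  have h1 := hq (R + S) T
  have h2 := hq (R + T) S
  have h3 := hq (S + T) R
  have h4 := hq R (S - T)
  have h5 := hq S (R - T)
  have h6 := hq T (R - S)
  have h7 := hq R S
  have h8 := hq R T
  have h9 := hq S T
  have e1 : R + T + S = R + S + T := by abel
  have e2 : S + T + R = R + S + T := by abel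
  have e3 : q (R + T - S) = q (R - (S - T)) := by congr 1; abel
  have e4 : q (S + T - R) = q (S - (R - T)) := by congr 1; abel
  have e5 : q (R + S - T) = q (R + (S - T)) := by congr 1; abel
  have e6 : q (T + (R - S)) = q (R - (S - T)) := by congr 1; abel
  have e7 : q (T - (R - S)) = q (S - (R - T)) := by congr 1; abel
  have e8 : q (S + (R - T)) = q (R + (S - T)) := by congr 1; abel
  have e9 : q (R + (S + T)) = q (R + S + T) := by congr 1; abel
  rw [e1, e3] at h2
  rw [e2, e4] at h3
  rw [e5] at h1
  rw [e8] at h5
  rw [e6, e7] at h6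
  unfold bform
  rw [e9]
  linarith

lemma bform_zero (hq : ∀ R S : A, q (R + S) + q (R - S) = 2 * q R + 2 * q S) (R : A) :
    bform q R 0 = 0 := by
  have h0 := par_zero hq
  simp [bform, h0]

lemma bform_sub_eq (hq : ∀ R S : A, q (R + S) + q (R - S) = 2 * q R + 2 * q S) (R S : A) :
    q (R - S) = q R + q S - bform q R S := by
  have := hq R S
  unfold bform
  linarith

lemma bform_self (hq : ∀ R S : A, q (R + S) + q (R - S) = 2 * q R + 2 * q S) (R : A) :
    bform q R R = 2 * q R := by
  have := hq R R
  have h0 := par_zero hq
  simp [h0] at this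
  unfold bform
  linarith


end Pool.Agent.LibHR84
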