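import Mathlib

/-!
Kernels of finite rank.
-/

open scoped Classical

namespace Pool.Agent.LibHR84

variable {X Y : Type} (B : X → Y → ℤ)

/-- the space of the functions `B (·, y)` -/
def sp : Submodule ℚ (X → ℚ) := Submodule.span ℚ (Set.range fun (y : Y) (x : X) => (B x y : ℚ))

theorem exists_ys [FiniteDimensional ℚ (sp B)] {μ : ℕ} (hμ : Module.finrank ℚ (sp B) = μ) :
    ∃ ys : Fin μ → Y, LinearIndependent ℚ (fun (b : Fin μ) (x : X) => (B x (ys b) : ℚ)) ∧
      ∀ y, ∃ c : Fin μ → ℚ, ∀ x, (B x y : ℚ) = ∑ b, c b * B x (ys b) := by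
  subst hμ
  have : FiniteDimensional ℚ (Submodule.span ℚ
      (Set.range fun (y : Y) (x : X) => (B x y : ℚ))) :=
    inferInstanceAs (FiniteDimensional ℚ (sp B))
  obtain ⟨f, hf, hsp, hli⟩ := Submodule.exists_fun_fin_finrank_span_eq ℚ
    (Set.range fun (y : Y) (x : X) => (B x y : ℚ))
  choose ys hys using hf
  have hys' : (fun (b : Fin (Module.finrank ℚ (sp B))) (x : X) => (B x (ys b) : ℚ)) = f :=
    funext hys
  refine ⟨ys, by rw [hys']; exact hli, fun y => ?_⟩
  have h1 : (fun x => (B x y : ℚ)) ∈ Submodule.span ℚ (Set.range f) := by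
    rw [hsp]
    exact Submodule.subset_span ⟨y, rfl⟩
  rw [Submodule.mem_span_range_iff_exists_fun] at h1
  obtain ⟨c, hc⟩ := h1
  refine ⟨c, fun x => ?_⟩
  have h2 := congrFun hc x
  rw [Finset.sum_apply] at h2
  rw [← h2]
  refine Finset.sum_congr rfl fun b _ => ?_
  rw [Pi.smul_apply, smul_eq_mul, ← hys b]

theorem exists_xs {μ : ℕ} {ys : Fin μ → Y}
    (hli : LinearIndependent ℚ (fun (b : Fin μ) (x : X) => (B x (ys b) : ℚ))) :
    ∃ xs : Fin μ → X, (Matrix.of fun a b => (B (xs a) (ys b) : ℚ)).det ≠ 0 := by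
  let v : X → Fin μ → ℚ := fun x b => (B x (ys b) : ℚ)
  have htop : Submodule.span ℚ (Set.range v) = ⊤ := by
    by_contra hne
    obtain ⟨φ, hφ, h1⟩ := Submodule.exists_le_ker_of_lt_top _ (lt_top_iff_ne_top.2 hne)
    apply hφ
    have h2 : ∀ x, φ (v x) = 0 := fun x =>
      LinearMap.mem_ker.1 (h1 (Submodule.subset_span ⟨x, rfl⟩))
    have h3 : ∀ x, ∑ b, φ (Pi.single b 1) * v x b = 0 := by
      intro x
      rw [← h2 x]
      have h4 : v x = ∑ b, v x b • (Pi.single b 1 : Fin μ → ℚ) := by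
        funext b
        rw [Finset.sum_apply]
        simp [Pi.single_apply]
      conv_rhs => rw [h4]
      rw [map_sum]
      refine Finset.sum_congr rfl fun b _ => ?_
      rw [map_smul, smul_eq_mul, mul_comm]
    have h5 := Fintype.linearIndependent_iff.1 hli (fun b => φ (Pi.single b 1)) (by
      funext x
      rw [Finset.sum_apply, Pi.zero_apply, ← h3 x]
      rfl)
    refine LinearMap.pi_ext fun b q => ?_
    have h6 : (Pi.single b q : Fin μ → ℚ) = q • Pi.single b 1 := by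
      rw [← Pi.single_smul, smul_eq_mul, mul_one]
    rw [h6, map_smul, h5 b, smul_zero]
    rfl
  have hfr : Module.finrank ℚ (Submodule.span ℚ (Set.range v)) = μ := by
    rw [htop, finrank_top, Module.finrank_fintype_fun_eq_card, Fintype.card_fin]
  have key : ∀ n, Module.finrank ℚ (Submodule.span ℚ (Set.range v)) = n →
      ∃ f : Fin n → Fin μ → ℚ, (∀ i, f i ∈ Set.range v) ∧ LinearIndependent ℚ f := by
    rintro n rfl
    obtain ⟨f, hf, hsp, hlf⟩ := Submodule.exists_fun_fin_finrank_span_eq ℚ (Set.range v)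
    exact ⟨f, hf, hlf⟩
  obtain ⟨f, hf, hlf⟩ := key μ hfr
  choose xs hxs using hf
  refine ⟨xs, ?_⟩
  have h7 : (Matrix.of fun a b => (B (xs a) (ys b) : ℚ)) = Matrix.of f := by
    ext a b
    exact congrFun (hxs a) b
  rw [h7]
  have h8 : IsUnit (Matrix.of f) := Matrix.linearIndependent_rows_iff_isUnit.1 hlf
  exact ((Matrix.isUnit_iff_isUnit_det _).1 h8).ne_zero

/-- the decomposition of the kernel -/
theorem decomp {μ : ℕ} {ys : Fin μ → Y} {xs : Fin μ → X}
    (hys : ∀ y, ∃ c : Fin μ → ℚ, ∀ x, (B x y : ℚ) = ∑ b, c b * B x (ys b))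
    (hxs : (Matrix.of fun a b => (B (xs a) (ys b) : ℚ)).det ≠ 0) (x : X) (y : Y) :
    (B x y : ℚ) = ∑ b, ∑ a, (B x (ys b) : ℚ) *
      (Matrix.of fun a b => (B (xs a) (ys b) : ℚ))⁻¹ b a * B (xs a) y := by
  set β : Matrix (Fin μ) (Fin μ) ℚ := Matrix.of fun a b => (B (xs a) (ys b) : ℚ) with hβ
  obtain ⟨c, hc⟩ := hys y
  have h1 : β.mulVec c = fun a => (B (xs a) y : ℚ) := by
    funext a
    rw [hc (xs a)]
    simp only [Matrix.mulVec, dotProduct, hβ, Matrix.of_apply]
    refine Finset.sum_congr rfl fun b _ => ?_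
    rw [mul_comm]
  have h2 : c = β⁻¹.mulVec fun a => (B (xs a) y : ℚ) := by
    rw [← h1, Matrix.mulVec_mulVec, Matrix.nonsing_inv_mul _ (isUnit_iff_ne_zero.2 hxs),
      Matrix.one_mulVec]
  rw [hc x]
  refine Finset.sum_congr rfl fun b _ => ?_
  have h3 : c b = ∑ a, β⁻¹ b a * (B (xs a) y : ℚ) := by
    conv_lhs => rw [h2]
    rfl
  rw [h3, Finset.sum_mul]
  refine Finset.sum_congr rfl fun a _ => ?_
  ring

/-- clearing denominators -/
theorem clear {μ : ℕ} (c : Fin μ → ℚ) : ∃ (n : ℤ) (a : Fin μ → ℤ), n ≠ 0 ∧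
    ∀ b, (a b : ℚ) = n * c b := by
  obtain ⟨m, hm⟩ := IsLocalization.exist_integer_multiples_of_finite (nonZeroDivisors ℤ) c
  choose f hf using hm
  refine ⟨m, f, nonZeroDivisors.ne_zero m.2, fun b => ?_⟩
  have h2 := hf b
  rw [zsmul_eq_mul] at h2
  exact h2

end Pool.Agent.LibHR84
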