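import Pool.Agent.LibHR84.Lin
import Pool.Agent.LibHR84.Ker
import Pool.Agent.LibCV66.R1
import Pool.Agent.LibHR84.Bf

/-!
The pairing of formal combinations: algebra.
-/

open Pool.Agent.LibAC34 Pool.Agent.LibCV66 Pool.Agent.LibBH2
open scoped Classical

set_option linter.unusedSectionVars false

namespace Pool.Agent.LibHR84

/-! ### the kernel -/

section kernel
variable {r D D' : ℕ}

/-- pairs -/
abbrev PP (r D : ℕ) : Type := Matrix (Fin r) (Fin D) ℤ × (Fin r → ℤ)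

/-- the index types with the two blocks exchanged -/
def sw (e : Fin r ≃ (Fin D ⊕ Unit) ⊕ Fin D') : Fin r ≃ (Fin D' ⊕ Unit) ⊕ Fin D :=
  e.trans ((Equiv.sumComm (Fin D ⊕ Unit) (Fin D')).trans
    ((Equiv.sumCongr (Equiv.refl (Fin D')) (Equiv.sumComm (Fin D) Unit)).trans
      (Equiv.sumAssoc (Fin D') Unit (Fin D)).symm))

theorem jn_sw (e : Fin r ≃ (Fin D ⊕ Unit) ⊕ Fin D') (N : Matrix (Fin r) (Fin D) ℤ)
    (x : Fin r → ℤ) (N' : Matrix (Fin r) (Fin D') ℤ) : jn (sw e) N' x N = jn e N x N' := by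
  unfold jn dt
  congr 1
  ext i j
  rw [Matrix.submatrix_apply, Matrix.submatrix_apply]
  rcases h : e j with (a | u) | b
  · simp [sw, h, bx]
  · simp [sw, h, bx]
  · simp [sw, h, bx]

/-- the kernel -/
def kB (e : Fin r ≃ (Fin D ⊕ Unit) ⊕ Fin D') (p : PP r D) (p' : PP r D') : ℤ :=
  jn e p.1 p.2 p'.1 * jn e p.1 p'.2 p'.1

theorem kB_sw (e : Fin r ≃ (Fin D ⊕ Unit) ⊕ Fin D') (p : PP r D) (p' : PP r D') :
    kB (sw e) p' p = kB e p p' := by
  unfold kB
  rw [jn_sw, jn_sw, mul_comm]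

theorem kB_kf (e : Fin r ≃ (Fin D ⊕ Unit) ⊕ Fin D') (p' : PP r D') :
    ∃ (q : PP r D) (κ₁ κ₂ : ℤ), κ₂ ≠ 0 ∧ ∀ p, κ₂ * kB e p p' = κ₁ * kf p q := by
  obtain ⟨M, z, κ₁, κ₂, h, h1⟩ := F1 e p'.1 p'.2
  exact ⟨(M, z), κ₁, κ₂, h, fun p => h1 p.1 p.2⟩

theorem kf_kB (e : Fin r ≃ (Fin D ⊕ Unit) ⊕ Fin D') (q : PP r D) :
    ∃ (p' : PP r D') (κ₁ κ₂ : ℤ), κ₁ ≠ 0 ∧ ∀ p, κ₂ * kB e p p' = κ₁ * kf p q := by
  obtain ⟨N', w', κ₁, κ₂, h, h1⟩ := F2 e q.1 q.2
  exact ⟨(N', w'), κ₁, κ₂, h, fun p => h1 p.1 p.2⟩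

theorem sp_kB (e : Fin r ≃ (Fin D ⊕ Unit) ⊕ Fin D') : sp (kB e) =
    Submodule.span ℚ (Set.range fun p q : PP r D => (kf p q : ℚ)) := by
  apply le_antisymm
  · unfold sp
    rw [Submodule.span_le]
    rintro _ ⟨p', rfl⟩
    obtain ⟨q, κ₁, κ₂, h, h1⟩ := kB_kf e p'
    have h2 : (fun p => (kB e p p' : ℚ)) = ((κ₁ : ℚ) / κ₂) • fun p => (kf q p : ℚ) := by
      funext p
      rw [Pi.smul_apply, smul_eq_mul, kf_symm q p]
      have h3 : (κ₂ : ℚ) * kB e p p' = κ₁ * kf p q := by exact_mod_cast h1 p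
      have h4 : (κ₂ : ℚ) ≠ 0 := by exact_mod_cast h
      field_simp
      linarith
    show (fun p => (kB e p p' : ℚ)) ∈ _
    rw [h2]
    exact Submodule.smul_mem _ _ (Submodule.subset_span ⟨q, rfl⟩)
  · rw [Submodule.span_le]
    rintro _ ⟨q, rfl⟩
    obtain ⟨p', κ₁, κ₂, h, h1⟩ := kf_kB e q
    have h2 : (fun p => (kf q p : ℚ)) = ((κ₂ : ℚ) / κ₁) • fun p => (kB e p p' : ℚ) := by
      funext p
      rw [Pi.smul_apply, smul_eq_mul, kf_symm q p]
      have h3 : (κ₂ : ℚ) * kB e p p' = κ₁ * kf p q := by exact_mod_cast h1 p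
      have h4 : (κ₁ : ℚ) ≠ 0 := by exact_mod_cast h
      field_simp
      linarith
    show (fun p => (kf q p : ℚ)) ∈ _
    rw [h2]
    exact Submodule.smul_mem _ _ (Submodule.subset_span ⟨p', rfl⟩)

instance (e : Fin r ≃ (Fin D ⊕ Unit) ⊕ Fin D') : FiniteDimensional ℚ (sp (kB e)) := by
  rw [sp_kB]
  infer_instance

theorem finrank_sp (e : Fin r ≃ (Fin D ⊕ Unit) ⊕ Fin D') :
    Module.finrank ℚ (sp (kB e)) = mul r D := by
  rw [sp_kB]
  rfl

theorem jn_linear (e : Fin r ≃ (Fin D ⊕ Unit) ⊕ Fin D') (N : Matrix (Fin r) (Fin D) ℤ)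
    (x : Fin r → ℤ) (N' : Matrix (Fin r) (Fin D') ℤ) :
    jn e N x N' = ∑ i, x i * jn e N (Pi.single i 1) N' := by
  have h1 : ∀ y, jn e N y N' = Matrix.cramer
      ((Matrix.fromCols (bx N 0) N').submatrix id e) y (e.symm (Sum.inl (Sum.inr ()))) := by
    intro y
    rw [Matrix.cramer_apply]
    unfold jn dt
    congr 1
    ext i j
    by_cases h : j = e.symm (Sum.inl (Sum.inr ()))
    · subst h
      rw [Matrix.updateCol_self, Matrix.submatrix_apply, Equiv.apply_symm_apply]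
      rfl
    · rw [Matrix.updateCol_ne h, Matrix.submatrix_apply, Matrix.submatrix_apply]
      rcases h' : e j with (a | u) | b
      · rfl
      · exfalso
        apply h
        rw [Equiv.eq_symm_apply, h']
      · rfl
  have h2 : x = ∑ i, x i • (Pi.single i 1 : Fin r → ℤ) := by
    funext i
    rw [Finset.sum_apply]
    simp [Pi.single_apply]
  rw [h1 x]
  conv_lhs => rw [h2]
  rw [map_sum, Finset.sum_apply]
  refine Finset.sum_congr rfl fun i _ => ?_
  rw [map_smul, Pi.smul_apply, smul_eq_mul, h1]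

end kernel

/-! ### tests -/

section tests
variable {r D : ℕ} {G : Type} [AddCommGroup G]

/-- formal combinations of pairs `(N, g)` -/
abbrev Cm (r D : ℕ) (G : Type) : Type := (Matrix (Fin r) (Fin D) ℤ × (Fin r → G)) →₀ ℤ

/-- the test given by the function `κ` -/
noncomputable def tk (κ : PP r D → ℤ) : Cm r D G →+ G :=
  Finsupp.liftAddHom fun p => zmultiplesHom _ (∑ i, κ (p.1, Pi.single i 1) • p.2 i)

theorem tk_apply (κ : PP r D → ℤ) (c : Cm r D G) :
    tk κ c = c.sum fun p n => n • ∑ i, κ (p.1, Pi.single i 1) • p.2 i := rfl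

theorem tk_single (κ : PP r D → ℤ) (p : Matrix (Fin r) (Fin D) ℤ × (Fin r → G)) (n : ℤ) :
    tk κ (Finsupp.single p n) = n • ∑ i, κ (p.1, Pi.single i 1) • p.2 i := by
  rw [tk_apply]
  exact Finsupp.sum_single_index (zero_smul ℤ _)

theorem tk_rel {m : ℤ} {κ : PP r D → ℤ} {μ : ℕ} {a : Fin μ → ℤ} {κs : Fin μ → PP r D → ℤ}
    (h : ∀ p, m * κ p = ∑ b, a b * κs b p) (c : Cm r D G) :
    m • tk κ c = ∑ b, a b • tk (κs b) c := by
  induction c using Finsupp.induction_linear with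
  | zero => simp
  | add c c' hc hc' =>
    simp only [map_add, smul_add, Finset.sum_add_distrib]
    rw [hc, hc']
  | single P n =>
    simp only [tk_single, Finset.smul_sum, smul_smul]
    rw [Finset.sum_comm]
    refine Finset.sum_congr rfl fun i _ => ?_
    rw [← Finset.sum_smul]
    congr 1
    have h1 := h (P.1, Pi.single i 1)
    calc m * (n * κ (P.1, Pi.single i 1)) = n * (m * κ (P.1, Pi.single i 1)) := by ring
      _ = _ := by
        rw [h1, Finset.mul_sum]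
        exact Finset.sum_congr rfl fun j _ => by ring

theorem tk_rel1 {m a : ℤ} {κ κ' : PP r D → ℤ} (h : ∀ p, m * κ p = a * κ' p) (c : Cm r D G) :
    m • tk κ c = a • tk κ' c := by
  have h1 := tk_rel (μ := 1) (a := fun _ => a) (κs := fun _ => κ') (fun p => by
    rw [h p, Finset.univ_unique, Finset.sum_singleton]) c
  rw [h1, Finset.univ_unique, Finset.sum_singleton]

theorem tor_of {m : ℤ} (hm : m ≠ 0) {x : G} (h : IsOfFinAddOrder (m • x)) :
    IsOfFinAddOrder x := by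
  rw [isOfFinAddOrder_iff_zsmul_eq_zero] at h ⊢
  obtain ⟨n, hn, h1⟩ := h
  exact ⟨n * m, mul_ne_zero hn hm, by rw [mul_smul, h1]⟩

theorem tor_smul (m : ℤ) {x : G} (h : IsOfFinAddOrder x) : IsOfFinAddOrder (m • x) :=
  h.zsmul

theorem tor_sum {μ : ℕ} {x : Fin μ → G} (h : ∀ b, IsOfFinAddOrder (x b)) :
    IsOfFinAddOrder (∑ b, x b) := by
  have h1 : ∑ b, x b ∈ AddCommGroup.torsion G := AddSubgroup.sum_mem _ fun b _ => h b
  exact h1

/-- the Abel-Jacobi tests -/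
def AJ (c : Cm r D G) : Prop := ∀ q : PP r D, IsOfFinAddOrder (tk (fun p => kf p q) c)

/-- homological triviality -/
def Hom0 (c : Cm r D G) : Prop :=
  ∀ M : Matrix (Fin r) (Fin D) ℤ, (c.sum fun p n => n * (M.transpose * p.1).det ^ 2) = 0

end tests

end Pool.Agent.LibHR84
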