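import Pool.Agent.LibHR84.Pair

/-!
The Gram matrix of the pairing.
-/

open Pool.Agent.LibAC34 Pool.Agent.LibCV66 Pool.Agent.LibBH2
open scoped Classical

set_option linter.unusedSectionVars false

namespace Pool.Agent.LibHR84

section gram
variable {r D D' : ℕ} {G : Type} [AddCommGroup G] {h : G → ℝ}
  (hq : ∀ R S : G, h (R + S) + h (R - S) = 2 * h R + 2 * h S)

/-- the matrix of the values of the kernel -/
def bt (e : Fin r ≃ (Fin D ⊕ Unit) ⊕ Fin D') {μ : ℕ} (xs : Fin μ → PP r D)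
    (ys : Fin μ → PP r D') : Matrix (Fin μ) (Fin μ) ℚ :=
  Matrix.of fun a b => (kB e (xs a) (ys b) : ℚ)

/-- the contribution of one pair to a test -/
def Vt (κ : PP r D → ℤ) (p : Matrix (Fin r) (Fin D) ℤ × (Fin r → G)) : G :=
  ∑ i, κ (p.1, Pi.single i 1) • p.2 i

theorem tk_eq (κ : PP r D → ℤ) (c : Cm r D G) : tk κ c = ∑ p ∈ c.support, c p • Vt κ p := rfl

theorem bh_V (e : Fin r ≃ (Fin D ⊕ Unit) ⊕ Fin D') {μ : ℕ} {xs : Fin μ → PP r D}
    {ys : Fin μ → PP r D'}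
    (hdec : ∀ p p', (kB e p p' : ℚ) = ∑ b, ∑ a, (kB e p (ys b) : ℚ) * (bt e xs ys)⁻¹ b a *
      kB e (xs a) p')
    (p : Matrix (Fin r) (Fin D) ℤ × (Fin r → G)) (p' : Matrix (Fin r) (Fin D') ℤ × (Fin r → G)) :
    bh h hq (lam e p.1 p.2 p'.1) (lam e p.1 p'.2 p'.1) =
      ∑ b, ∑ a, (((bt e xs ys)⁻¹ b a : ℚ) : ℝ) * bh h hq (Vt (fun p => kB e p (ys b)) p)
        (Vt (fun p' => kB e (xs a) p') p') := by
  unfold lam Vt
  rw [bh_sum h hq]
  simp only [bh_sum h hq, Finset.mul_sum]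
  have h1 : ∀ b, ∑ a, ∑ i, ∑ j, (((bt e xs ys)⁻¹ b a : ℚ) : ℝ) *
      ((kB e (p.1, Pi.single i 1) (ys b) * kB e (xs a) (p'.1, Pi.single j 1) : ℝ) *
        bh h hq (p.2 i) (p'.2 j)) = ∑ i, ∑ j, ∑ a, (((bt e xs ys)⁻¹ b a : ℚ) : ℝ) *
      ((kB e (p.1, Pi.single i 1) (ys b) * kB e (xs a) (p'.1, Pi.single j 1) : ℝ) *
        bh h hq (p.2 i) (p'.2 j)) := by
    intro b
    rw [Finset.sum_comm]
    refine Finset.sum_congr rfl fun i _ => ?_
    rw [Finset.sum_comm]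
  rw [Finset.sum_congr rfl fun b _ => h1 b]
  conv_rhs => rw [Finset.sum_comm]
  refine Finset.sum_congr rfl fun i _ => ?_
  conv_rhs => rw [Finset.sum_comm]
  refine Finset.sum_congr rfl fun j _ => ?_
  have h2 := hdec (p.1, Pi.single i 1) (p'.1, Pi.single j 1)
  have h3 : (kB e (p.1, Pi.single i 1) (p'.1, Pi.single j 1) : ℝ) = ∑ b, ∑ a,
      (kB e (p.1, Pi.single i 1) (ys b) : ℝ) * (((bt e xs ys)⁻¹ b a : ℚ) : ℝ) *
      kB e (xs a) (p'.1, Pi.single j 1) := by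
    have h4 := congrArg (Rat.cast : ℚ → ℝ) h2
    push_cast at h4
    exact h4
  have h5 : (jn e p.1 (Pi.single i 1) p'.1 * jn e p.1 (Pi.single j 1) p'.1 : ℝ) =
      kB e (p.1, Pi.single i 1) (p'.1, Pi.single j 1) := by
    unfold kB
    push_cast
    rfl
  rw [h5, h3, Finset.sum_mul]
  refine Finset.sum_congr rfl fun b _ => ?_
  rw [Finset.sum_mul]
  refine Finset.sum_congr rfl fun a _ => ?_
  ring

/-- the pairing in terms of tests -/
theorem pr_tests (e : Fin r ≃ (Fin D ⊕ Unit) ⊕ Fin D') {μ : ℕ} {xs : Fin μ → PP r D}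
    {ys : Fin μ → PP r D'}
    (hdec : ∀ p p', (kB e p p' : ℚ) = ∑ b, ∑ a, (kB e p (ys b) : ℚ) * (bt e xs ys)⁻¹ b a *
      kB e (xs a) p')
    {c : Cm r D G} (hc : Hom0 c) {c' : Cm r D' G} (hc' : Hom0 c') :
    pr h e c c' = ∑ b, ∑ a, (((bt e xs ys)⁻¹ b a : ℚ) : ℝ) *
      bh h hq (tk (fun p => kB e p (ys b)) c) (tk (fun p' => kB e (xs a) p') c') := by
  rw [pr_hom hq e hc hc']
  simp only [tk_eq, bh_sum h hq, Finset.mul_sum]
  have h1 : ∀ b, ∑ a, ∑ p ∈ c.support, ∑ p' ∈ c'.support, (((bt e xs ys)⁻¹ b a : ℚ) : ℝ) *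
      ((c p * c' p' : ℝ) * bh h hq (Vt (fun p => kB e p (ys b)) p)
        (Vt (fun p' => kB e (xs a) p') p')) = ∑ p ∈ c.support, ∑ p' ∈ c'.support, ∑ a,
      (((bt e xs ys)⁻¹ b a : ℚ) : ℝ) *
      ((c p * c' p' : ℝ) * bh h hq (Vt (fun p => kB e p (ys b)) p)
        (Vt (fun p' => kB e (xs a) p') p')) := by
    intro b
    rw [Finset.sum_comm]
    refine Finset.sum_congr rfl fun p _ => ?_
    rw [Finset.sum_comm]
  rw [Finset.sum_congr rfl fun b _ => h1 b]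
  conv_rhs => rw [Finset.sum_comm]
  refine Finset.sum_congr rfl fun p _ => ?_
  conv_rhs => rw [Finset.sum_comm]
  refine Finset.sum_congr rfl fun p' _ => ?_
  beta_reduce
  rw [bh_V hq e hdec p p', Finset.mul_sum]
  refine Finset.sum_congr rfl fun b _ => ?_
  rw [Finset.mul_sum]
  refine Finset.sum_congr rfl fun a _ => ?_
  ring

end gram

section frame
variable {r D D' : ℕ}

/-- good test points -/
theorem exists_frame (e : Fin r ≃ (Fin D ⊕ Unit) ⊕ Fin D') :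
    ∃ (xs : Fin (mul r D) → PP r D) (ys : Fin (mul r D) → PP r D'), (bt e xs ys).det ≠ 0 ∧
      (∀ p p', (kB e p p' : ℚ) = ∑ b, ∑ a, (kB e p (ys b) : ℚ) * (bt e xs ys)⁻¹ b a *
        kB e (xs a) p') ∧
      ∀ p', ∃ c : Fin (mul r D) → ℚ, ∀ p, (kB e p p' : ℚ) = ∑ b, c b * kB e p (ys b) := by
  obtain ⟨ys, hli, hys⟩ := exists_ys (kB e) (finrank_sp e)
  obtain ⟨xs, hxs⟩ := exists_xs (kB e) hli
  exact ⟨xs, ys, hxs, fun p p' => decomp (kB e) hys hxs p p', hys⟩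

variable {G : Type} [AddCommGroup G]

/-- the tests with the kernel and the Abel-Jacobi tests, on the left -/
theorem aj_left (e : Fin r ≃ (Fin D ⊕ Unit) ⊕ Fin D') {μ : ℕ} {ys : Fin μ → PP r D'}
    (hys : ∀ p', ∃ c : Fin μ → ℚ, ∀ p, (kB e p p' : ℚ) = ∑ b, c b * kB e p (ys b))
    (c : Cm r D G) : AJ c ↔ ∀ b, IsOfFinAddOrder (tk (fun p => kB e p (ys b)) c) := by
  constructor
  · intro hc b
    obtain ⟨q, κ₁, κ₂, hκ, h1⟩ := kB_kf e (ys b)
    refine tor_of hκ ?_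
    rw [tk_rel1 h1 c]
    exact tor_smul _ (hc q)
  · intro hc q
    obtain ⟨p', κ₁, κ₂, hκ, h1⟩ := kf_kB e q
    refine tor_of hκ ?_
    rw [← tk_rel1 h1 c]
    refine tor_smul _ ?_
    obtain ⟨u, hu⟩ := hys p'
    obtain ⟨n, a, hn, ha⟩ := clear u
    refine tor_of hn ?_
    rw [tk_rel (m := n) (κ := fun p => kB e p p') (a := a) (κs := fun b p => kB e p (ys b))
      (fun p => ?_) c]
    · exact tor_sum fun b => tor_smul _ (hc b)
    · have h2 : ((n * kB e p p' : ℤ) : ℚ) = ((∑ b, a b * kB e p (ys b) : ℤ) : ℚ) := by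
        push_cast
        rw [hu p, Finset.mul_sum]
        refine Finset.sum_congr rfl fun b _ => ?_
        rw [ha]
        ring
      exact_mod_cast h2

/-- the same on the right -/
theorem aj_right (e : Fin r ≃ (Fin D ⊕ Unit) ⊕ Fin D') {μ : ℕ} {xs : Fin μ → PP r D}
    {ys : Fin μ → PP r D'}
    (hdec : ∀ p p', (kB e p p' : ℚ) = ∑ b, ∑ a, (kB e p (ys b) : ℚ) * (bt e xs ys)⁻¹ b a *
      kB e (xs a) p')
    (c : Cm r D' G) : AJ c ↔ ∀ a, IsOfFinAddOrder (tk (fun p' => kB e (xs a) p') c) := by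
  have h1 := aj_left (sw e) (ys := xs) (fun p => by
    refine ⟨fun a => ∑ b, (kB e p (ys b) : ℚ) * (bt e xs ys)⁻¹ b a, fun p' => ?_⟩
    rw [kB_sw, hdec p p', Finset.sum_comm]
    refine Finset.sum_congr rfl fun a _ => ?_
    rw [kB_sw, Finset.sum_mul]) c
  rw [h1]
  refine forall_congr' fun a => ?_
  have h2 : (fun p' => kB (sw e) p' (xs a)) = fun p' => kB e (xs a) p' := by
    funext p'
    rw [kB_sw]
  rw [h2]

end frame

end Pool.Agent.LibHR84
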