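import Mathlib

/-!
Linear algebra: determinants of complementary blocks.
-/

open Matrix
open scoped Classical

set_option linter.unusedSectionVars false

namespace Pool.Agent.LibHR84

section gen
variable {r : ℕ} {α β : Type} [Fintype α] [DecidableEq α] [Fintype β] [DecidableEq β]

/-- the determinant of the matrix `(N | Y)` -/
def dt (e : Fin r ≃ α ⊕ β) (N : Matrix (Fin r) α ℤ) (Y : Matrix (Fin r) β ℤ) : ℤ :=
  ((fromCols N Y).submatrix id e).det

theorem dt_mul (e : Fin r ≃ α ⊕ β) (Q N : Matrix (Fin r) α ℤ) {Y : Matrix (Fin r) β ℤ}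
    (h : Qᵀ * Y = 0) : dt e Q Y * dt e N Y = (Qᵀ * N).det * (Yᵀ * Y).det := by
  unfold dt
  rw [← Matrix.det_transpose ((fromCols Q Y).submatrix id e), ← Matrix.det_mul]
  have h1 : ((fromCols Q Y).submatrix id e)ᵀ * (fromCols N Y).submatrix id e =
      (((fromCols Q Y)ᵀ * fromCols N Y)).submatrix e e := by
    rw [Matrix.transpose_submatrix, Matrix.submatrix_mul _ _ e id e Function.bijective_id]
  rw [h1, Matrix.det_submatrix_equiv_self, Matrix.transpose_fromCols, Matrix.fromRows_mul_fromCols,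
    h, Matrix.det_fromBlocks_zero₁₂]

theorem dep_of_det {Y : Matrix (Fin r) β ℤ} (h : (Yᵀ * Y).det = 0) :
    ∃ v : β → ℤ, v ≠ 0 ∧ Y.mulVec v = 0 := by
  obtain ⟨v, hv, h1⟩ := Matrix.exists_mulVec_eq_zero_iff.2 h
  refine ⟨v, hv, ?_⟩
  have h2 : dotProduct (Y.mulVec v) (Y.mulVec v) = 0 := by
    rw [Matrix.dotProduct_mulVec, Matrix.vecMul_mulVec, ← Matrix.mulVec_transpose,
      Matrix.transpose_mul, Matrix.transpose_transpose]
    rw [h1]
    simp
  exact dotProduct_self_eq_zero.1 h2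

theorem dt_zero (e : Fin r ≃ α ⊕ β) (N : Matrix (Fin r) α ℤ) {Y : Matrix (Fin r) β ℤ}
    (h : (Yᵀ * Y).det = 0) : dt e N Y = 0 := by
  obtain ⟨v, hv, h1⟩ := dep_of_det h
  unfold dt
  refine Matrix.exists_mulVec_eq_zero_iff.1 ⟨(Sum.elim 0 v) ∘ e, ?_, ?_⟩
  · intro h2
    apply hv
    funext b
    have h3 := congrFun h2 (e.symm (Sum.inr b))
    simpa using h3
  · have h2 : ((fromCols N Y).submatrix id e).mulVec ((Sum.elim (0 : α → ℤ) v) ∘ e) =
        (fromCols N Y).mulVec (Sum.elim 0 v) := by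
      funext i
      simp only [Matrix.mulVec, dotProduct, Matrix.submatrix_apply, id_eq, Function.comp]
      exact Equiv.sum_comp e (fun j => fromCols N Y i j * Sum.elim (0 : α → ℤ) v j)
    rw [h2, Matrix.fromCols_mulVec]
    simp [h1]

/-- an orthogonal complement -/
theorem exists_orth (e : Fin r ≃ α ⊕ β) (Q : Matrix (Fin r) α ℤ) :
    ∃ Y : Matrix (Fin r) β ℤ, Qᵀ * Y = 0 ∧ (Yᵀ * Y).det ≠ 0 := by
  let T : (Fin r → ℚ) →ₗ[ℚ] (α → ℚ) := (Q.map (Int.cast : ℤ → ℚ))ᵀ.mulVecLin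
  have hcard : r = Fintype.card α + Fintype.card β := by
    have := Fintype.card_congr e
    rwa [Fintype.card_fin, Fintype.card_sum] at this
  have h1 : Fintype.card β ≤ Module.finrank ℚ (LinearMap.ker T) := by
    have h2 := LinearMap.finrank_range_add_finrank_ker T
    rw [Module.finrank_fintype_fun_eq_card, Fintype.card_fin] at h2
    have h3 : Module.finrank ℚ (LinearMap.range T) ≤ Fintype.card α := by
      refine (Submodule.finrank_le _).trans ?_
      rw [Module.finrank_fintype_fun_eq_card]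
    omega
  obtain ⟨ι⟩ : Nonempty (β ↪ Fin (Module.finrank ℚ (LinearMap.ker T))) := by
    rw [Function.Embedding.nonempty_iff_card_le, Fintype.card_fin]
    exact h1
  let bs := Module.finBasis ℚ (LinearMap.ker T)
  let y : β → Fin r → ℚ := fun b => (bs (ι b) : Fin r → ℚ)
  have hy : LinearIndependent ℚ y := by
    have h2 := bs.linearIndependent.comp ι ι.injective
    exact h2.map' (LinearMap.ker T).subtype (Submodule.ker_subtype _)
  have hyT : ∀ b, T (y b) = 0 := fun b => (bs (ι b)).2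
  obtain ⟨m, hm⟩ := IsLocalization.exist_integer_multiples_of_finite (nonZeroDivisors ℤ)
    (fun t : β × Fin r => y t.1 t.2)
  choose f hf using hm
  have hm0 : ((m : ℤ) : ℚ) ≠ 0 := Int.cast_ne_zero.2 (nonZeroDivisors.ne_zero m.2)
  have hf' : ∀ b i, ((f (b, i) : ℤ) : ℚ) = (m : ℤ) * y b i := by
    intro b i
    have h2 := hf (b, i)
    rw [zsmul_eq_mul] at h2
    exact h2
  refine ⟨Matrix.of fun i b => f (b, i), ?_, ?_⟩
  · ext a b
    rw [Matrix.mul_apply, Matrix.zero_apply]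
    have h2 := congrFun (hyT b) a
    have h3 : T (y b) a = ∑ i, (Q i a : ℚ) * y b i := by
      simp only [T, Matrix.mulVecLin_apply, Matrix.mulVec, dotProduct, Matrix.transpose_apply,
        Matrix.map_apply]
    rw [h3] at h2
    have h4 : ((∑ i, Qᵀ a i * (Matrix.of fun i b => f (b, i)) i b : ℤ) : ℚ) = 0 := by
      push_cast
      simp only [Matrix.transpose_apply, Matrix.of_apply, hf']
      have h5 : ∑ i, (Q i a : ℚ) * ((m : ℤ) * y b i) = (m : ℤ) * ∑ i, (Q i a : ℚ) * y b i := by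
        rw [Finset.mul_sum]
        refine Finset.sum_congr rfl fun i _ => ?_
        ring
      rw [h5, h2]
      simp
    exact_mod_cast h4
  · intro h2
    obtain ⟨v, hv, h3⟩ := dep_of_det h2
    apply hv
    funext b
    have h4 : ∑ b, ((v b : ℚ) * (m : ℤ)) • y b = 0 := by
      funext i
      have h5 := congrFun h3 i
      have h6 : (((Matrix.of fun i b => f (b, i) : Matrix (Fin r) β ℤ).mulVec v i : ℤ) : ℚ) = 0 := by
        rw [h5]
        simp
      simp only [Matrix.mulVec, dotProduct, Matrix.of_apply] at h6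
      push_cast at h6
      rw [Finset.sum_apply, Pi.zero_apply, ← h6]
      refine Finset.sum_congr rfl fun b _ => ?_
      rw [Pi.smul_apply, smul_eq_mul, hf']
      ring
    have h7 := (Fintype.linearIndependent_iff.1 hy) _ h4 b
    rcases mul_eq_zero.1 h7 with h8 | h8
    · exact_mod_cast h8
    · exact absurd h8 hm0

theorem det_orth {A : Matrix (Fin r) α ℤ} {B : Matrix (Fin r) β ℤ} (h : Aᵀ * B = 0) :
    ((fromCols A B)ᵀ * fromCols A B).det = (Aᵀ * A).det * (Bᵀ * B).det := by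
  rw [Matrix.transpose_fromCols, Matrix.fromRows_mul_fromCols, h, Matrix.det_fromBlocks_zero₁₂]

theorem det_unit (z : Fin r → ℤ) :
    ((replicateCol Unit z)ᵀ * replicateCol Unit z).det = dotProduct z z := by
  rw [Matrix.det_unique]
  rfl

theorem dt_sq_ne (e : Fin r ≃ α ⊕ β) {Q : Matrix (Fin r) α ℤ} {Y : Matrix (Fin r) β ℤ}
    (h : Qᵀ * Y = 0) (hQ : (Qᵀ * Q).det ≠ 0) (hY : (Yᵀ * Y).det ≠ 0) : dt e Q Y ≠ 0 := by
  intro h0
  have h1 := dt_mul e Q Q h
  rw [h0, zero_mul] at h1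
  exact mul_ne_zero hQ hY h1.symm

theorem exists_comp (e : Fin r ≃ α ⊕ β) (Y : Matrix (Fin r) β ℤ) :
    ∃ Q : Matrix (Fin r) α ℤ, Qᵀ * Y = 0 ∧ (Qᵀ * Q).det ≠ 0 := by
  obtain ⟨Q, h1, h2⟩ := exists_orth (e.trans (Equiv.sumComm α β)) Y
  refine ⟨Q, ?_, h2⟩
  have h3 := congrArg Matrix.transpose h1
  rwa [Matrix.transpose_mul, Matrix.transpose_transpose, Matrix.transpose_zero] at h3

end gen

section pair
variable {r : ℕ} {α β : Type} [Fintype α] [DecidableEq α] [Fintype β] [DecidableEq β]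

/-- the matrix `(N | z)` -/
def bx (N : Matrix (Fin r) α ℤ) (z : Fin r → ℤ) : Matrix (Fin r) (α ⊕ Unit) ℤ :=
  fromCols N (replicateCol Unit z)

/-- the determinant of `(N | x | N')` -/
def jn (e : Fin r ≃ (α ⊕ Unit) ⊕ β) (N : Matrix (Fin r) α ℤ) (x : Fin r → ℤ)
    (N' : Matrix (Fin r) β ℤ) : ℤ := dt e (bx N x) N'

theorem dt_assoc (e : Fin r ≃ (α ⊕ Unit) ⊕ β) (N : Matrix (Fin r) α ℤ) (x : Fin r → ℤ)
    (N' : Matrix (Fin r) β ℤ) :
    dt (e.trans (Equiv.sumAssoc α Unit β)) N (fromCols (replicateCol Unit x) N') =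
      jn e N x N' := by
  unfold jn dt bx
  congr 1
  ext i j
  rw [Matrix.submatrix_apply, Matrix.submatrix_apply]
  rcases h : e j with (a | u) | b
  · simp [h]
  · simp [h]
  · simp [h]

theorem F0 (e : Fin r ≃ (α ⊕ Unit) ⊕ β) (x : Fin r → ℤ) (N' : Matrix (Fin r) β ℤ) :
    ∃ (M : Matrix (Fin r) α ℤ) (κ₁ κ₂ : ℤ), κ₂ ≠ 0 ∧ ∀ N, κ₂ * jn e N x N' =
      κ₁ * (Mᵀ * N).det := by
  let e2 := e.trans (Equiv.sumAssoc α Unit β)
  let Y : Matrix (Fin r) (Unit ⊕ β) ℤ := fromCols (replicateCol Unit x) N'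
  by_cases hY : (Yᵀ * Y).det = 0
  · refine ⟨0, 0, 1, one_ne_zero, fun N => ?_⟩
    rw [← dt_assoc, dt_zero e2 N hY, mul_zero, zero_mul]
  · obtain ⟨M, h1, h2⟩ := exists_comp e2 Y
    refine ⟨M, (Yᵀ * Y).det, dt e2 M Y, dt_sq_ne e2 h1 h2 hY, fun N => ?_⟩
    rw [← dt_assoc, dt_mul e2 M N h1, mul_comm]

theorem F1 (e : Fin r ≃ (α ⊕ Unit) ⊕ β) (N' : Matrix (Fin r) β ℤ) (w' : Fin r → ℤ) :
    ∃ (M : Matrix (Fin r) α ℤ) (z : Fin r → ℤ) (κ₁ κ₂ : ℤ), κ₂ ≠ 0 ∧ ∀ N x,
      κ₂ * (jn e N x N' * jn e N w' N') =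
        κ₁ * ((Mᵀ * N).det * ((bx M z)ᵀ * bx N x).det) := by
  let e2 := e.trans (Equiv.sumAssoc α Unit β)
  let Y : Matrix (Fin r) (Unit ⊕ β) ℤ := fromCols (replicateCol Unit w') N'
  by_cases hY : (Yᵀ * Y).det = 0
  · refine ⟨0, 0, 0, 1, one_ne_zero, fun N x => ?_⟩
    rw [← dt_assoc e N w' N', dt_zero e2 N hY, mul_zero, mul_zero, zero_mul]
  obtain ⟨M, h1, h2⟩ := exists_comp e2 Y
  have hMw : Mᵀ.mulVec w' = 0 := by
    funext a
    have h3 := congrFun (congrFun h1 a) (Sum.inl ())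
    rw [Matrix.mul_apply] at h3
    exact h3
  have hMN : Mᵀ * N' = 0 := by
    ext a b
    have h3 := congrFun (congrFun h1 a) (Sum.inr b)
    rw [Matrix.mul_apply] at h3
    rw [Matrix.mul_apply]
    exact h3
  let δ := (N'ᵀ * N').det
  let v := (N'ᵀ * N').adjugate.mulVec (N'ᵀ.mulVec w')
  let z : Fin r → ℤ := δ • w' - N'.mulVec v
  have hNz : N'ᵀ.mulVec z = 0 := by
    show N'ᵀ.mulVec (δ • w' - N'.mulVec v) = 0
    rw [Matrix.mulVec_sub, Matrix.mulVec_smul, Matrix.mulVec_mulVec, Matrix.mulVec_mulVec,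
      Matrix.mul_adjugate, Matrix.smul_mulVec, Matrix.one_mulVec, sub_self]
  have hMz : Mᵀ.mulVec z = 0 := by
    show Mᵀ.mulVec (δ • w' - N'.mulVec v) = 0
    rw [Matrix.mulVec_sub, Matrix.mulVec_smul, Matrix.mulVec_mulVec, hMw, hMN, smul_zero,
      Matrix.zero_mulVec, sub_self]
  have hδ : δ ≠ 0 := by
    intro h0
    obtain ⟨u, hu, h3⟩ := dep_of_det h0
    apply hY
    refine Matrix.exists_mulVec_eq_zero_iff.1 ⟨Sum.elim 0 u, ?_, ?_⟩
    · intro h4
      apply hu
      funext b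
      exact congrFun h4 (Sum.inr b)
    · rw [← Matrix.mulVec_mulVec, Matrix.fromCols_mulVec]
      simp [h3]
  have hz : z ≠ 0 := by
    intro h0
    apply hY
    refine Matrix.exists_mulVec_eq_zero_iff.1 ⟨Sum.elim (fun _ => δ) (-v), ?_, ?_⟩
    · intro h4
      apply hδ
      exact congrFun h4 (Sum.inl ())
    · rw [← Matrix.mulVec_mulVec, Matrix.fromCols_mulVec]
      have h5 : (replicateCol Unit w').mulVec (Sum.elim (fun _ : Unit => δ) (-v) ∘ Sum.inl) +
          N'.mulVec (Sum.elim (fun _ : Unit => δ) (-v) ∘ Sum.inr) = z := by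
        funext i
        rw [Pi.add_apply]
        simp only [Matrix.mulVec, dotProduct, Function.comp, Sum.elim_inl, Sum.elim_inr,
          Finset.univ_unique, Finset.sum_singleton, Matrix.replicateCol_apply]
        show w' i * δ + ∑ b, N' i b * (-v) b = δ • w' i - N'.mulVec v i
        simp only [Pi.neg_apply, mul_neg, Finset.sum_neg_distrib, smul_eq_mul, Matrix.mulVec,
          dotProduct]
        ring
      rw [h5, h0, Matrix.mulVec_zero]
  have hQY : (bx M z)ᵀ * N' = 0 := by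
    ext a b
    rw [Matrix.mul_apply, Matrix.zero_apply]
    rcases a with a | a
    · have h3 := congrFun (congrFun hMN a) b
      rw [Matrix.mul_apply] at h3
      exact h3
    · have h3 := congrFun hNz b
      simp only [Matrix.mulVec, dotProduct, Matrix.transpose_apply, Pi.zero_apply] at h3
      rw [← h3]
      refine Finset.sum_congr rfl fun i _ => ?_
      show z i * N' i b = _
      rw [mul_comm]
  have hzz : ((bx M z)ᵀ * bx M z).det ≠ 0 := by
    unfold bx
    rw [det_orth, det_unit]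
    · exact mul_ne_zero h2 fun h0 => hz (dotProduct_self_eq_zero.1 h0)
    · ext a b
      have h3 := congrFun hMz a
      rw [Matrix.mul_apply]
      exact h3
  refine ⟨M, z, δ * (Yᵀ * Y).det, jn e M z N' * dt e2 M Y,
    mul_ne_zero (dt_sq_ne e hQY hzz hδ) (dt_sq_ne e2 h1 h2 hY), fun N x => ?_⟩
  have h3 := dt_mul e (bx M z) (bx N x) hQY
  have h4 := dt_mul e2 M N h1
  rw [← dt_assoc e N w' N']
  calc jn e M z N' * dt e2 M Y * (jn e N x N' * dt e2 N Y) =
      (jn e M z N' * jn e N x N') * (dt e2 M Y * dt e2 N Y) := by ring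
    _ = (((bx M z)ᵀ * bx N x).det * (N'ᵀ * N').det) * ((Mᵀ * N).det * (Yᵀ * Y).det) := by
      rw [h4]
      congr 1
    _ = _ := by ring

theorem F2 (e : Fin r ≃ (α ⊕ Unit) ⊕ β) (M : Matrix (Fin r) α ℤ) (z : Fin r → ℤ) :
    ∃ (N' : Matrix (Fin r) β ℤ) (w' : Fin r → ℤ) (κ₁ κ₂ : ℤ), κ₁ ≠ 0 ∧ ∀ N x,
      κ₂ * (jn e N x N' * jn e N w' N') =
        κ₁ * ((Mᵀ * N).det * ((bx M z)ᵀ * bx N x).det) := by
  let e2 := e.trans (Equiv.sumAssoc α Unit β)
  let δ := (Mᵀ * M).det
  by_cases hδ : δ = 0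
  · refine ⟨0, 0, 1, 0, one_ne_zero, fun N x => ?_⟩
    obtain ⟨u, hu, h3⟩ := dep_of_det hδ
    have h4 : (Mᵀ * N).det = 0 := by
      rw [← Matrix.det_transpose, Matrix.transpose_mul, Matrix.transpose_transpose]
      refine Matrix.exists_mulVec_eq_zero_iff.1 ⟨u, hu, ?_⟩
      rw [← Matrix.mulVec_mulVec, h3, Matrix.mulVec_zero]
    rw [h4]
    ring
  let v := (Mᵀ * M).adjugate.mulVec (Mᵀ.mulVec z)
  let w' : Fin r → ℤ := δ • z - M.mulVec v
  have hMw : Mᵀ.mulVec w' = 0 := by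
    show Mᵀ.mulVec (δ • z - M.mulVec v) = 0
    rw [Matrix.mulVec_sub, Matrix.mulVec_smul, Matrix.mulVec_mulVec, Matrix.mulVec_mulVec,
      Matrix.mul_adjugate, Matrix.smul_mulVec, Matrix.one_mulVec, sub_self]
  by_cases hw : w' = 0
  · refine ⟨0, 0, 1, 0, one_ne_zero, fun N x => ?_⟩
    have h4 : ((bx M z)ᵀ * bx N x).det = 0 := by
      rw [← Matrix.det_transpose, Matrix.transpose_mul, Matrix.transpose_transpose]
      refine Matrix.exists_mulVec_eq_zero_iff.1 ⟨Sum.elim (-v) (fun _ => δ), ?_, ?_⟩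
      · intro h4
        exact hδ (congrFun h4 (Sum.inr ()))
      · have h5 : (bx M z).mulVec (Sum.elim (-v) (fun _ => δ)) = w' := by
          unfold bx
          rw [Matrix.fromCols_mulVec]
          funext i
          rw [Pi.add_apply]
          simp only [Matrix.mulVec, dotProduct, Function.comp, Sum.elim_inl, Sum.elim_inr,
            Finset.univ_unique, Finset.sum_singleton, Matrix.replicateCol_apply]
          show ∑ b, M i b * (-v) b + z i * δ = δ • z i - M.mulVec v i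
          simp only [Pi.neg_apply, mul_neg, Finset.sum_neg_distrib, smul_eq_mul, Matrix.mulVec,
            dotProduct]
          ring
        rw [← Matrix.mulVec_mulVec, h5, hw, Matrix.mulVec_zero]
    rw [h4]
    ring
  obtain ⟨N', h1, h2⟩ := exists_orth e (bx M z)
  have hMN : Mᵀ * N' = 0 := by
    ext a b
    have h3 := congrFun (congrFun h1 (Sum.inl a)) b
    rw [Matrix.mul_apply] at h3
    rw [Matrix.mul_apply]
    exact h3
  have hzN : N'ᵀ.mulVec z = 0 := by
    funext b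
    have h3 := congrFun (congrFun h1 (Sum.inr ())) b
    rw [Matrix.mul_apply] at h3
    simp only [Matrix.mulVec, dotProduct, Matrix.transpose_apply, Pi.zero_apply]
    rw [Matrix.zero_apply] at h3
    rw [← h3]
    refine Finset.sum_congr rfl fun i _ => ?_
    show _ = z i * N' i b
    rw [mul_comm]
  have hNM : N'ᵀ * M = 0 := by
    have h3 := congrArg Matrix.transpose hMN
    rwa [Matrix.transpose_mul, Matrix.transpose_transpose, Matrix.transpose_zero] at h3
  have hNw : N'ᵀ.mulVec w' = 0 := by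
    show N'ᵀ.mulVec (δ • z - M.mulVec v) = 0
    rw [Matrix.mulVec_sub, Matrix.mulVec_smul, Matrix.mulVec_mulVec, hzN, hNM, smul_zero,
      Matrix.zero_mulVec, sub_self]
  let Y : Matrix (Fin r) (Unit ⊕ β) ℤ := fromCols (replicateCol Unit w') N'
  have hMY : Mᵀ * Y = 0 := by
    ext a b
    rcases b with b | b
    · have h3 := congrFun hMw a
      rw [Matrix.mul_apply]
      exact h3
    · have h3 := congrFun (congrFun hMN a) b
      rw [Matrix.mul_apply] at h3
      rw [Matrix.mul_apply]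
      exact h3
  have hwN : (replicateCol Unit w')ᵀ * N' = 0 := by
    ext a b
    have h3 := congrFun hNw b
    simp only [Matrix.mulVec, dotProduct, Matrix.transpose_apply, Pi.zero_apply] at h3
    rw [Matrix.mul_apply, Matrix.zero_apply, ← h3]
    refine Finset.sum_congr rfl fun i _ => ?_
    show w' i * N' i b = _
    rw [mul_comm]
  have hYY : (Yᵀ * Y).det ≠ 0 := by
    show ((fromCols (replicateCol Unit w') N')ᵀ * fromCols (replicateCol Unit w') N').det ≠ 0
    rw [det_orth hwN, det_unit]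
    exact mul_ne_zero (fun h0 => hw (dotProduct_self_eq_zero.1 h0)) h2
  refine ⟨N', w', (N'ᵀ * N').det * (Yᵀ * Y).det, jn e M z N' * dt e2 M Y,
    mul_ne_zero h2 hYY, fun N x => ?_⟩
  have h3 := dt_mul e (bx M z) (bx N x) h1
  have h4 := dt_mul e2 M N hMY
  rw [← dt_assoc e N w' N']
  calc jn e M z N' * dt e2 M Y * (jn e N x N' * dt e2 N Y) =
      (jn e M z N' * jn e N x N') * (dt e2 M Y * dt e2 N Y) := by ring
    _ = (((bx M z)ᵀ * bx N x).det * (N'ᵀ * N').det) * ((Mᵀ * N).det * (Yᵀ * Y).det) := by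
      rw [h4]
      congr 1
    _ = _ := by ring

end pair

end Pool.Agent.LibHR84
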