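import Pool.Agent.LibHR84.Gram

/-!
Non-degeneracy and the determinant of the pairing.
-/

open Pool.Agent.LibAC34 Pool.Agent.LibCV66 Pool.Agent.LibBH2
open scoped Classical Kronecker

set_option linter.unusedSectionVars false

namespace Pool.Agent.LibHR84

section nondeg
variable {r D D' : ℕ} {G : Type} [AddCommGroup G] {h : G → ℝ}
  (hq : ∀ R S : G, h (R + S) + h (R - S) = 2 * h R + 2 * h S)

include hq in
theorem pr_zero (e : Fin r ≃ (Fin D ⊕ Unit) ⊕ Fin D') {c : Cm r D G} (hc : Hom0 c) (ha : AJ c)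
    {c' : Cm r D' G} (hc' : Hom0 c') : pr h e c c' = 0 := by
  obtain ⟨xs, ys, hdet, hdec, hys⟩ := exists_frame e
  rw [pr_tests hq e hdec hc hc']
  refine Finset.sum_eq_zero fun b _ => Finset.sum_eq_zero fun a _ => ?_
  rw [bh_tor h hq ((aj_left e hys c).1 ha b), mul_zero]

/-- a special combination -/
noncomputable def spc (p : PP r D) (R : G) : Cm r D G :=
  Finsupp.single (p.1, fun i => p.2 i • R) 1 - Finsupp.single (p.1, 0) 1

theorem spc_hom (p : PP r D) (R : G) : Hom0 (spc p R) := by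
  intro M
  unfold spc
  rw [Finsupp.sum_sub_index (fun _ _ _ => sub_mul _ _ _),
    Finsupp.sum_single_index (zero_mul _), Finsupp.sum_single_index (zero_mul _), sub_self]

theorem kB_linear (e : Fin r ≃ (Fin D ⊕ Unit) ⊕ Fin D') (p : PP r D) (p' : PP r D') :
    kB e p p' = ∑ i, p'.2 i * kB e p (p'.1, Pi.single i 1) := by
  unfold kB
  simp only []
  rw [jn_linear e p.1 p'.2 p'.1, Finset.mul_sum]
  refine Finset.sum_congr rfl fun i _ => ?_
  ring

theorem tk_spc (e : Fin r ≃ (Fin D ⊕ Unit) ⊕ Fin D') (p : PP r D) (p' : PP r D') (R : G) :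
    tk (fun p' => kB e p p') (spc p' R) = kB e p p' • R := by
  unfold spc
  rw [map_sub, tk_single, tk_single, kB_linear e p p']
  simp only [Pi.zero_apply, smul_zero, Finset.sum_const_zero, sub_zero, one_smul, smul_smul]
  rw [← Finset.sum_smul]
  congr 1
  refine Finset.sum_congr rfl fun i _ => ?_
  ring

include hq in
theorem aj_of_pr (hpos : ∀ R, h R = 0 → IsOfFinAddOrder R)
    (e : Fin r ≃ (Fin D ⊕ Unit) ⊕ Fin D') {c : Cm r D G} (hc : Hom0 c)
    (h0 : ∀ c' : Cm r D' G, Hom0 c' → pr h e c c' = 0) : AJ c := by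
  obtain ⟨xs, ys, hdet, hdec, hys⟩ := exists_frame e
  rw [aj_left e hys c]
  intro b₀
  set R := tk (fun p => kB e p (ys b₀)) c with hR
  apply hpos
  have h1 := h0 _ (spc_hom (ys b₀) R)
  rw [pr_tests hq e hdec hc (spc_hom (ys b₀) R)] at h1
  have h2 : ∀ b, ∑ a, (((bt e xs ys)⁻¹ b a : ℚ) : ℝ) *
      bh h hq (tk (fun p => kB e p (ys b)) c) (tk (fun p' => kB e (xs a) p') (spc (ys b₀) R)) =
      (((1 : Matrix (Fin (mul r D)) (Fin (mul r D)) ℚ) b b₀ : ℚ) : ℝ) *
        bh h hq (tk (fun p => kB e p (ys b)) c) R := by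
    intro b
    rw [← Matrix.nonsing_inv_mul _ (isUnit_iff_ne_zero.2 hdet), Matrix.mul_apply]
    push_cast
    rw [Finset.sum_mul]
    refine Finset.sum_congr rfl fun a _ => ?_
    rw [tk_spc, map_zsmul, zsmul_eq_mul]
    show _ = ((bt e xs ys)⁻¹ b a : ℝ) * ((kB e (xs a) (ys b₀) : ℚ) : ℝ) * _
    push_cast
    ring
  rw [Finset.sum_congr rfl fun b _ => h2 b, Finset.sum_eq_single b₀] at h1
  · rw [Matrix.one_apply_eq, Rat.cast_one, one_mul, ← hR, bh_self] at h1
    exact h1
  · intro b _ hb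
    rw [Matrix.one_apply_ne hb, Rat.cast_zero, zero_mul]
  · intro hb
    exact absurd (Finset.mem_univ b₀) hb

end nondeg

/-! ### coordinates -/

section coord
variable {G : Type} [AddCommGroup G] {h : G → ℝ}
  (hq : ∀ R S : G, h (R + S) + h (R - S) = 2 * h R + 2 * h S) {ρ : ℕ} {R : Fin ρ → G}

theorem exists_mult (hli : LinearIndependent ℤ R) (hrank : Module.rank ℤ G = ρ) (x : G) :
    ∃ (n : ℤ) (a : Fin ρ → ℤ), n ≠ 0 ∧ n • x = ∑ i, a i • R i := by
  by_contra hno
  push Not at hno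
  have h1 : LinearIndependent ℤ (Fin.cons x R : Fin (ρ + 1) → G) := by
    rw [Fintype.linearIndependent_iff]
    intro g hg
    rw [Fin.sum_univ_succ] at hg
    simp only [Fin.cons_zero, Fin.cons_succ] at hg
    have h2 : g 0 = 0 := by
      by_contra h3
      refine hno (g 0) (fun i => -g i.succ) h3 ?_
      simp only [neg_smul, Finset.sum_neg_distrib]
      exact eq_neg_of_add_eq_zero_left hg
    rw [h2, zero_smul, zero_add] at hg
    have h3 := Fintype.linearIndependent_iff.1 hli _ hg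
    intro i
    refine Fin.cases h2 (fun j => h3 j) i
  have h2 := h1.cardinal_le_rank
  rw [hrank, Cardinal.mk_fin] at h2
  have h3 : ρ + 1 ≤ ρ := by exact_mod_cast h2
  omega

theorem exists_cor (hli : LinearIndependent ℤ R) (hrank : Module.rank ℤ G = ρ) :
    ∃ cor : G →+ (Fin ρ → ℚ), (∀ x, cor x = 0 ↔ IsOfFinAddOrder x) ∧
      ∀ x y, bh h hq x y = ∑ i, ∑ j, ((cor x i : ℚ) : ℝ) * ((cor y j : ℚ) : ℝ) *
        bh h hq (R i) (R j) := by
  let T : (Fin ρ → ℤ) →+ G := AddMonoidHom.mk' (fun a => ∑ i, a i • R i) fun a b => by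
    simp only [Pi.add_apply, add_smul, Finset.sum_add_distrib]
  have hT : Function.Injective T := by
    rw [injective_iff_map_eq_zero]
    intro a ha
    exact funext fun i => Fintype.linearIndependent_iff.1 hli a ha i
  have h1 : ∀ i, ∃ f : G →+ ℚ, ∀ a, f (T a) = (a i : ℚ) := by
    intro i
    obtain ⟨f, hf⟩ := (Module.Baer.of_divisible ℚ).extension_property_addMonoidHom T hT
      (AddMonoidHom.mk' (fun a : Fin ρ → ℤ => (a i : ℚ)) fun a b => by
        rw [Pi.add_apply, Int.cast_add])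
    exact ⟨f, fun a => DFunLike.congr_fun hf a⟩
  choose f hf using h1
  let cor : G →+ (Fin ρ → ℚ) := AddMonoidHom.mk' (fun x i => f i x) fun x y => by
    funext i
    exact map_add _ _ _
  have hcor : ∀ x i, cor x i = f i x := fun _ _ => rfl
  have key : ∀ x, ∃ (n : ℤ) (a : Fin ρ → ℤ), n ≠ 0 ∧ n • x = ∑ i, a i • R i ∧
      ∀ i, (n : ℚ) * cor x i = a i := by
    intro x
    obtain ⟨n, a, hn, h2⟩ := exists_mult hli hrank x
    refine ⟨n, a, hn, h2, fun i => ?_⟩
    have h3 := hf i a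
    have h4 : T a = n • x := h2.symm
    rw [h4, map_zsmul, zsmul_eq_mul] at h3
    exact h3
  refine ⟨cor, fun x => ⟨fun hx => ?_, fun hx => ?_⟩, fun x y => ?_⟩
  · obtain ⟨n, a, hn, h2, h3⟩ := key x
    rw [isOfFinAddOrder_iff_zsmul_eq_zero]
    refine ⟨n, hn, ?_⟩
    rw [h2]
    refine Finset.sum_eq_zero fun i _ => ?_
    have h4 := h3 i
    rw [hx, Pi.zero_apply, mul_zero] at h4
    have h5 : a i = 0 := by exact_mod_cast h4.symm
    rw [h5, zero_smul]
  · funext i
    obtain ⟨n, hn, h2⟩ := isOfFinAddOrder_iff_nsmul_eq_zero.1 hx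
    have h3 : (n : ℚ) * f i x = 0 := by
      rw [← nsmul_eq_mul, ← map_nsmul, h2, map_zero]
    rcases mul_eq_zero.1 h3 with h4 | h4
    · exact absurd (by exact_mod_cast h4) hn.ne'
    · exact h4
  · obtain ⟨n, a, hn, h2, h3⟩ := key x
    obtain ⟨m, b, hm, h4, h5⟩ := key y
    have h6 : (n * m : ℝ) * bh h hq x y = ∑ i, ∑ j, (a i * b j : ℝ) * bh h hq (R i) (R j) := by
      rw [← bh_sum h hq, ← h2, ← h4, map_zsmul, map_zsmul, AddMonoidHom.zsmul_apply,
        zsmul_eq_mul, zsmul_eq_mul]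
      ring
    have hn' : (n : ℝ) ≠ 0 := by exact_mod_cast hn
    have hm' : (m : ℝ) ≠ 0 := by exact_mod_cast hm
    have h7 : (n * m : ℝ) * bh h hq x y = (n * m : ℝ) * ∑ i, ∑ j, ((cor x i : ℚ) : ℝ) *
        ((cor y j : ℚ) : ℝ) * bh h hq (R i) (R j) := by
      rw [h6, Finset.mul_sum]
      refine Finset.sum_congr rfl fun i _ => ?_
      rw [Finset.mul_sum]
      refine Finset.sum_congr rfl fun j _ => ?_
      have h8 : (n : ℝ) * ((cor x i : ℚ) : ℝ) = a i := by exact_mod_cast h3 i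
      have h9 : (m : ℝ) * ((cor y j : ℚ) : ℝ) = b j := by exact_mod_cast h5 j
      rw [← h8, ← h9]
      ring
    exact mul_left_cancel₀ (mul_ne_zero hn' hm') h7

end coord

/-! ### the determinant -/

section det
variable {r D D' : ℕ} {G : Type} [AddCommGroup G] {h : G → ℝ}
  (hq : ∀ R S : G, h (R + S) + h (R - S) = 2 * h R + 2 * h S) {ρ : ℕ}

/-- the matrix of the coordinates of the tests -/
noncomputable def xm (cor : G →+ (Fin ρ → ℚ)) {μ n : ℕ} (κs : Fin μ → PP r D → ℤ) (c : Fin n → Cm r D G) :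
    Matrix (Fin n) (Fin μ × Fin ρ) ℚ := fun s t => cor (tk (κs t.1) (c s)) t.2

theorem indep {cor : G →+ (Fin ρ → ℚ)} (hcor : ∀ x, cor x = 0 ↔ IsOfFinAddOrder x) {μ n : ℕ}
    {κs : Fin μ → PP r D → ℤ} (haj : ∀ c : Cm r D G, AJ c ↔ ∀ b, IsOfFinAddOrder (tk (κs b) c))
    (ε : Fin n ≃ Fin μ × Fin ρ) (c : Fin n → Cm r D G) :
    ((xm cor κs c).submatrix id ε).det ≠ 0 ↔
      ∀ v : Fin n → ℤ, AJ (∑ s, v s • c s) → v = 0 := by
  have h1 : ∀ v : Fin n → ℤ, AJ (∑ s, v s • c s) ↔
      ∀ t, ∑ s, (v s : ℚ) * xm cor κs c s t = 0 := by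
    intro v
    rw [haj]
    constructor
    · intro h2 t
      have h3 := congrFun ((hcor _).2 (h2 t.1)) t.2
      rw [map_sum, map_sum, Finset.sum_apply] at h3
      refine Eq.trans ?_ h3
      refine Finset.sum_congr rfl fun s _ => ?_
      rw [map_zsmul, map_zsmul, Pi.smul_apply, zsmul_eq_mul]
      rfl
    · intro h2 b
      rw [← hcor]
      funext i
      rw [map_sum, map_sum, Finset.sum_apply, Pi.zero_apply, ← h2 (b, i)]
      refine Finset.sum_congr rfl fun s _ => ?_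
      rw [map_zsmul, map_zsmul, Pi.smul_apply, zsmul_eq_mul]
      rfl
  constructor
  · intro hd v hv
    by_contra hne
    apply hd
    refine Matrix.exists_vecMul_eq_zero_iff.1 ⟨fun s => (v s : ℚ), ?_, ?_⟩
    · intro h2
      apply hne
      funext s
      have h3 : (v s : ℚ) = 0 := congrFun h2 s
      have h4 : v s = 0 := by exact_mod_cast h3
      exact h4
    · funext j
      exact (h1 v).1 hv (ε j)
  · intro hv hd
    obtain ⟨v, hne, h2⟩ := Matrix.exists_vecMul_eq_zero_iff.2 hd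
    obtain ⟨n₀, a, hn, ha⟩ := clear v
    have h3 : a = 0 := by
      apply hv
      rw [h1]
      intro t
      have h4 := congrFun h2 (ε.symm t)
      simp only [Matrix.vecMul, dotProduct, Matrix.submatrix_apply, id_eq,
        Equiv.apply_symm_apply, Pi.zero_apply] at h4
      have h5 : ∑ s, (a s : ℚ) * xm cor κs c s t = n₀ * ∑ s, v s * xm cor κs c s t := by
        rw [Finset.mul_sum]
        refine Finset.sum_congr rfl fun s _ => ?_
        rw [ha]
        ring
      rw [h5, h4, mul_zero]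
    apply hne
    funext s
    have h6 := ha s
    rw [h3, Pi.zero_apply, Int.cast_zero] at h6
    rcases mul_eq_zero.1 h6.symm with h7 | h7
    · exact absurd (by exact_mod_cast h7) hn
    · exact h7

/-- the regulator -/
noncomputable def reg (h : G → ℝ) (R : Fin ρ → G) : ℝ :=
  (Matrix.of fun i j => (h (R i + R j) - h (R i) - h (R j)) / 2).det

include hq in
theorem det_pr (e : Fin r ≃ (Fin D ⊕ Unit) ⊕ Fin D') {R : Fin ρ → G}
    (hli : LinearIndependent ℤ R) (hrank : Module.rank ℤ G = ρ)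
    (c : Fin (mul r D * ρ) → Cm r D G) (hc : ∀ s, Hom0 (c s))
    (c' : Fin (mul r D * ρ) → Cm r D' G) (hc' : ∀ t, Hom0 (c' t)) :
    ∃ q : ℚ, (Matrix.of fun s t => pr h e (c s) (c' t)).det = q * reg h R ^ mul r D ∧
      (q ≠ 0 ↔ (∀ v : Fin (mul r D * ρ) → ℤ, AJ (∑ s, v s • c s) → v = 0) ∧
        ∀ v : Fin (mul r D * ρ) → ℤ, AJ (∑ t, v t • c' t) → v = 0) := by
  obtain ⟨cor, hcor, hb⟩ := exists_cor hq hli hrank
  obtain ⟨xs, ys, hdet, hdec, hys⟩ := exists_frame e
  let ε : Fin (mul r D * ρ) ≃ Fin (mul r D) × Fin ρ := finProdFinEquiv.symm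
  let X := xm cor (fun b p => kB e p (ys b)) c
  let X' := xm cor (fun a p' => kB e (xs a) p') c'
  let Rg : Matrix (Fin ρ) (Fin ρ) ℝ := Matrix.of fun i j => (h (R i + R j) - h (R i) - h (R j)) / 2
  let bi : Matrix (Fin (mul r D)) (Fin (mul r D)) ℚ := (bt e xs ys)⁻¹
  let φ : ℚ →+* ℝ := Rat.castHom ℝ
  have hgram : (Matrix.of fun s t => pr h e (c s) (c' t)) =
      (X.map φ) * ((bi.map φ) ⊗ₖ Rg) * (X'.map φ).transpose := by
    ext s t
    rw [Matrix.of_apply, pr_tests hq e hdec (hc s) (hc' t), Matrix.mul_apply]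
    simp only [Matrix.mul_apply, Finset.sum_mul, Matrix.transpose_apply, Matrix.map_apply,
      Fintype.sum_prod_type, Matrix.kroneckerMap_apply]
    have h1 : ∀ b a, (((bt e xs ys)⁻¹ b a : ℚ) : ℝ) *
        bh h hq (tk (fun p => kB e p (ys b)) (c s)) (tk (fun p' => kB e (xs a) p') (c' t)) =
        ∑ j, ∑ i, φ (X s (b, i)) * (φ (bi b a) * Rg i j) * φ (X' t (a, j)) := by
      intro b a
      rw [hb, Finset.sum_comm, Finset.mul_sum]
      refine Finset.sum_congr rfl fun j _ => ?_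
      rw [Finset.mul_sum]
      refine Finset.sum_congr rfl fun i _ => ?_
      have h2 : Rg i j = bh h hq (R i) (R j) := rfl
      rw [h2]
      have h3 : φ (X s (b, i)) = ((cor (tk (fun p => kB e p (ys b)) (c s)) i : ℚ) : ℝ) := rfl
      have h4 : φ (X' t (a, j)) = ((cor (tk (fun p' => kB e (xs a) p') (c' t)) j : ℚ) : ℝ) := rfl
      have h5 : φ (bi b a) = (((bt e xs ys)⁻¹ b a : ℚ) : ℝ) := rfl
      rw [h3, h4, h5]
      ring
    rw [Finset.sum_congr rfl fun b _ => Finset.sum_congr rfl fun a _ => h1 b a, Finset.sum_comm]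
    refine Finset.sum_congr rfl fun a _ => ?_
    rw [Finset.sum_comm]
  refine ⟨(X.submatrix id ε).det * bi.det ^ ρ * (X'.submatrix id ε).det, ?_, ?_⟩
  · have h1 : (X.map φ) * ((bi.map φ) ⊗ₖ Rg) * (X'.map φ).transpose =
        ((X.submatrix id ε).map φ) * (((bi.map φ) ⊗ₖ Rg).submatrix ε ε) *
          ((X'.submatrix id ε).map φ).transpose := by
      have h2 : (X.submatrix id ε).map φ = (X.map φ).submatrix id ε := rfl
      have h3 : ((X'.submatrix id ε).map φ).transpose = (X'.map φ).transpose.submatrix ε id := rfl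
      rw [h2, h3, Matrix.submatrix_mul_equiv, Matrix.submatrix_mul_equiv,
        Matrix.submatrix_id_id]
    rw [hgram, h1, Matrix.det_mul, Matrix.det_mul, Matrix.det_transpose,
      Matrix.det_submatrix_equiv_self, Matrix.det_kronecker, Fintype.card_fin, Fintype.card_fin]
    have h4 : ∀ {m : ℕ} (A : Matrix (Fin m) (Fin m) ℚ), (A.map φ).det = ((A.det : ℚ) : ℝ) := by
      intro m A
      exact (RingHom.map_det φ A).symm
    rw [h4, h4, h4]
    push_cast
    show _ = _ * Rg.det ^ mul r D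
    ring
  · have h5 : bi.det ≠ 0 := by
      show ((bt e xs ys)⁻¹).det ≠ 0
      exact ((Matrix.isUnit_nonsing_inv_det_iff).2 (isUnit_iff_ne_zero.2 hdet)).ne_zero
    rw [← indep hcor (aj_left e hys) ε c, ← indep hcor (aj_right e hdec) ε c']
    constructor
    · intro h6
      exact ⟨left_ne_zero_of_mul (left_ne_zero_of_mul h6), right_ne_zero_of_mul h6⟩
    · rintro ⟨h6, h7⟩
      exact mul_ne_zero (mul_ne_zero h6 (pow_ne_zero _ h5)) h7

end det

end Pool.Agent.LibHR84
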