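import Pool.Agent.LibHR84.Alg

/-!
The pairing of formal combinations: the formula.
-/

open Pool.Agent.LibAC34 Pool.Agent.LibCV66 Pool.Agent.LibBH2
open scoped Classical

set_option linter.unusedSectionVars false

namespace Pool.Agent.LibHR84

section quad
variable {G : Type} [AddCommGroup G] (h : G → ℝ)
  (hq : ∀ R S : G, h (R + S) + h (R - S) = 2 * h R + 2 * h S)

theorem bform_comm (R S : G) : bform h R S = bform h S R := by
  unfold bform
  rw [add_comm R S]
  ring

/-- the symmetric form -/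
noncomputable def bh : G →+ G →+ ℝ :=
  AddMonoidHom.mk' (fun R => AddMonoidHom.mk' (fun S => bform h R S / 2) fun S T => by
    rw [bform_add hq]
    ring) fun R S => by
    ext T
    simp only [AddMonoidHom.mk'_apply, AddMonoidHom.add_apply]
    rw [bform_comm h (R + S), bform_add hq, bform_comm h T R, bform_comm h T S]
    ring

theorem bh_apply (R S : G) : bh h hq R S = bform h R S / 2 := rfl

theorem bh_self (R : G) : bh h hq R R = h R := by
  rw [bh_apply, bform_self hq]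
  ring

theorem bh_comm (R S : G) : bh h hq R S = bh h hq S R := by
  rw [bh_apply, bh_apply, bform_comm]

theorem h_sub (R S : G) : h (R - S) = h R + h S - 2 * bh h hq R S := by
  rw [bform_sub_eq hq, bh_apply]
  ring

include hq in
theorem h_neg (R : G) : h (-R) = h R := by
  have h1 := hq 0 R
  have h2 := hq 0 0
  simp at h1 h2
  linarith

theorem bh_tor {R : G} (hR : IsOfFinAddOrder R) (S : G) : bh h hq R S = 0 := by
  obtain ⟨n, hn, h1⟩ := isOfFinAddOrder_iff_nsmul_eq_zero.1 hR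
  have h2 : bh h hq (n • R) S = n * bh h hq R S := by
    rw [map_nsmul, AddMonoidHom.nsmul_apply, nsmul_eq_mul]
  rw [h1, map_zero, AddMonoidHom.zero_apply] at h2
  rcases mul_eq_zero.1 h2.symm with h3 | h3
  · exact absurd (by exact_mod_cast h3) hn.ne'
  · exact h3

theorem bh_sum {ι κ : Type} (s : Finset ι) (t : Finset κ) (a : ι → ℤ) (a' : κ → ℤ) (x : ι → G)
    (y : κ → G) : bh h hq (∑ i ∈ s, a i • x i) (∑ j ∈ t, a' j • y j) =
      ∑ i ∈ s, ∑ j ∈ t, (a i * a' j : ℝ) * bh h hq (x i) (y j) := by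
  rw [map_sum (bh h hq), AddMonoidHom.finsetSum_apply]
  refine Finset.sum_congr rfl fun i _ => ?_
  rw [map_sum]
  refine Finset.sum_congr rfl fun j _ => ?_
  rw [map_zsmul, map_zsmul, AddMonoidHom.zsmul_apply, zsmul_eq_mul, zsmul_eq_mul]
  ring

end quad

section pairing
variable {r D D' : ℕ} {G : Type} [AddCommGroup G]

/-- the point `det (N | x | N')` -/
def lam (e : Fin r ≃ (Fin D ⊕ Unit) ⊕ Fin D') (N : Matrix (Fin r) (Fin D) ℤ) (x : Fin r → G)
    (N' : Matrix (Fin r) (Fin D') ℤ) : G := ∑ i, jn e N (Pi.single i 1) N' • x i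

theorem lam_sub (e : Fin r ≃ (Fin D ⊕ Unit) ⊕ Fin D') (N : Matrix (Fin r) (Fin D) ℤ)
    (x y : Fin r → G) (N' : Matrix (Fin r) (Fin D') ℤ) :
    lam e N (x - y) N' = lam e N x N' - lam e N y N' := by
  unfold lam
  rw [← Finset.sum_sub_distrib]
  refine Finset.sum_congr rfl fun i _ => ?_
  rw [Pi.sub_apply, smul_sub]

theorem lam_sw (e : Fin r ≃ (Fin D ⊕ Unit) ⊕ Fin D') (N : Matrix (Fin r) (Fin D) ℤ)
    (x : Fin r → G) (N' : Matrix (Fin r) (Fin D') ℤ) : lam (sw e) N' x N = lam e N x N' := by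
  unfold lam
  refine Finset.sum_congr rfl fun i _ => ?_
  rw [jn_sw]

/-- the pairing -/
noncomputable def pr (h : G → ℝ) (e : Fin r ≃ (Fin D ⊕ Unit) ⊕ Fin D') (c : Cm r D G)
    (c' : Cm r D' G) : ℝ :=
  -(c.sum fun p m => c'.sum fun p' m' => (m * m' : ℝ) * h (lam e p.1 (p.2 - p'.2) p'.1)) / 2

variable {h : G → ℝ} (hq : ∀ R S : G, h (R + S) + h (R - S) = 2 * h R + 2 * h S)

include hq in
theorem pr_sw (e : Fin r ≃ (Fin D ⊕ Unit) ⊕ Fin D') (c : Cm r D G) (c' : Cm r D' G) :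
    pr h (sw e) c' c = pr h e c c' := by
  unfold pr
  congr 2
  unfold Finsupp.sum
  rw [Finset.sum_comm]
  refine Finset.sum_congr rfl fun p _ => Finset.sum_congr rfl fun p' _ => ?_
  beta_reduce
  rw [lam_sw, ← h_neg h hq]
  have h1 : -lam e p.1 (p'.2 - p.2) p'.1 = lam e p.1 (p.2 - p'.2) p'.1 := by
    rw [lam_sub, lam_sub, neg_sub]
  rw [h1]
  ring

/-- homological triviality kills the products of two coordinates -/
theorem kill (e : Fin r ≃ (Fin D ⊕ Unit) ⊕ Fin D') {c : Cm r D G} (hc : Hom0 c)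
    (N' : Matrix (Fin r) (Fin D') ℤ) (i j : Fin r) :
    (c.sum fun p m => m * (jn e p.1 (Pi.single i 1) N' * jn e p.1 (Pi.single j 1) N')) = 0 := by
  have h1 : ∀ x, (c.sum fun p m => m * jn e p.1 x N' ^ 2) = 0 := by
    intro x
    obtain ⟨M, κ₁, κ₂, hκ, h2⟩ := F0 e x N'
    have h3 : κ₂ ^ 2 * (c.sum fun p m => m * jn e p.1 x N' ^ 2) =
        κ₁ ^ 2 * (c.sum fun p m => m * (M.transpose * p.1).det ^ 2) := by
      unfold Finsupp.sum
      rw [Finset.mul_sum, Finset.mul_sum]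
      refine Finset.sum_congr rfl fun p _ => ?_
      have h4 := h2 p.1
      calc κ₂ ^ 2 * (c p * jn e p.1 x N' ^ 2) = c p * (κ₂ * jn e p.1 x N') ^ 2 := by ring
        _ = _ := by rw [h4]; ring
    rw [hc M, mul_zero] at h3
    rcases mul_eq_zero.1 h3 with h4 | h4
    · exact absurd (pow_eq_zero_iff two_ne_zero |>.1 h4) hκ
    · exact h4
  have hl : ∀ (N : Matrix (Fin r) (Fin D) ℤ) (x y : Fin r → ℤ),
      jn e N (x + y) N' = jn e N x N' + jn e N y N' := by
    intro N x y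
    rw [jn_linear e N (x + y), jn_linear e N x, jn_linear e N y, ← Finset.sum_add_distrib]
    refine Finset.sum_congr rfl fun i _ => ?_
    rw [Pi.add_apply, add_mul]
  have h2 := h1 (Pi.single i 1 + Pi.single j 1)
  have h3 := h1 (Pi.single i 1)
  have h4 := h1 (Pi.single j 1)
  have h5 : (c.sum fun p m => m * jn e p.1 (Pi.single i 1 + Pi.single j 1) N' ^ 2) =
      (c.sum fun p m => m * jn e p.1 (Pi.single i 1) N' ^ 2) +
      (c.sum fun p m => m * jn e p.1 (Pi.single j 1) N' ^ 2) + 2 *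
      (c.sum fun p m => m * (jn e p.1 (Pi.single i 1) N' * jn e p.1 (Pi.single j 1) N')) := by
    unfold Finsupp.sum
    rw [Finset.mul_sum, ← Finset.sum_add_distrib, ← Finset.sum_add_distrib]
    refine Finset.sum_congr rfl fun p _ => ?_
    beta_reduce
    rw [hl]
    ring
  rw [h2, h3, h4] at h5
  linarith

include hq in
theorem kill_h (e : Fin r ≃ (Fin D ⊕ Unit) ⊕ Fin D') {c : Cm r D G} (hc : Hom0 c)
    (x : Fin r → G) (N' : Matrix (Fin r) (Fin D') ℤ) :
    (c.sum fun p m => (m : ℝ) * h (lam e p.1 x N')) = 0 := by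
  have h1 : ∀ p : Matrix (Fin r) (Fin D) ℤ × (Fin r → G), h (lam e p.1 x N') =
      ∑ i, ∑ j, (jn e p.1 (Pi.single i 1) N' * jn e p.1 (Pi.single j 1) N' : ℝ) *
        bh h hq (x i) (x j) := by
    intro p
    rw [← bh_self h hq, lam, bh_sum]
  have h2 : (c.sum fun p m => (m : ℝ) * h (lam e p.1 x N')) = ∑ i, ∑ j,
      ((c.sum fun p m => m * (jn e p.1 (Pi.single i 1) N' * jn e p.1 (Pi.single j 1) N') : ℤ) : ℝ) *
        bh h hq (x i) (x j) := by
    unfold Finsupp.sum
    push_cast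
    simp only [Finset.sum_mul]
    have h3 : ∀ i, ∑ j, ∑ p ∈ c.support, (c p : ℝ) * ((jn e p.1 (Pi.single i 1) N' : ℝ) *
        (jn e p.1 (Pi.single j 1) N' : ℝ)) * bh h hq (x i) (x j) =
        ∑ p ∈ c.support, ∑ j, (c p : ℝ) * ((jn e p.1 (Pi.single i 1) N' : ℝ) *
        (jn e p.1 (Pi.single j 1) N' : ℝ)) * bh h hq (x i) (x j) := fun i => Finset.sum_comm
    rw [Finset.sum_congr rfl fun i _ => h3 i, Finset.sum_comm]
    refine Finset.sum_congr rfl fun p _ => ?_
    rw [h1, Finset.mul_sum]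
    refine Finset.sum_congr rfl fun i _ => ?_
    rw [Finset.mul_sum]
    refine Finset.sum_congr rfl fun j _ => ?_
    ring
  rw [h2]
  refine Finset.sum_eq_zero fun i _ => Finset.sum_eq_zero fun j _ => ?_
  rw [kill e hc, Int.cast_zero, zero_mul]

include hq in
/-- the formula for homologically trivial combinations -/
theorem pr_hom (e : Fin r ≃ (Fin D ⊕ Unit) ⊕ Fin D') {c : Cm r D G} (hc : Hom0 c)
    {c' : Cm r D' G} (hc' : Hom0 c') : pr h e c c' = c.sum fun p m => c'.sum fun p' m' =>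
      (m * m' : ℝ) * bh h hq (lam e p.1 p.2 p'.1) (lam e p.1 p'.2 p'.1) := by
  have h1 : (c.sum fun p m => c'.sum fun p' m' =>
      (m * m' : ℝ) * h (lam e p.1 (p.2 - p'.2) p'.1)) =
      (c.sum fun p m => (m : ℝ) * c'.sum fun p' m' => (m' : ℝ) * h (lam (sw e) p'.1 p.2 p.1)) +
      (c'.sum fun p' m' => (m' : ℝ) * c.sum fun p m => (m : ℝ) * h (lam e p.1 p'.2 p'.1)) -
      2 * c.sum fun p m => c'.sum fun p' m' =>
      (m * m' : ℝ) * bh h hq (lam e p.1 p.2 p'.1) (lam e p.1 p'.2 p'.1) := by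
    unfold Finsupp.sum
    simp only [Finset.mul_sum]
    rw [Finset.sum_comm (s := c'.support), ← Finset.sum_add_distrib, ← Finset.sum_sub_distrib]
    refine Finset.sum_congr rfl fun p _ => ?_
    rw [← Finset.sum_add_distrib, ← Finset.sum_sub_distrib]
    refine Finset.sum_congr rfl fun p' _ => ?_
    rw [lam_sub, h_sub h hq, lam_sw]
    ring
  have h2 : (c.sum fun p m => (m : ℝ) * c'.sum fun p' m' =>
      (m' : ℝ) * h (lam (sw e) p'.1 p.2 p.1)) = 0 := by
    refine Finset.sum_eq_zero fun p _ => ?_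
    beta_reduce
    rw [kill_h hq (sw e) hc' p.2 p.1, mul_zero]
  have h3 : (c'.sum fun p' m' => (m' : ℝ) * c.sum fun p m =>
      (m : ℝ) * h (lam e p.1 p'.2 p'.1)) = 0 := by
    refine Finset.sum_eq_zero fun p' _ => ?_
    beta_reduce
    rw [kill_h hq e hc p'.2 p'.1, mul_zero]
  unfold pr
  rw [h1, h2, h3]
  ring

end pairing

end Pool.Agent.LibHR84
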